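import Pool.Agent.H.MP_3eb4be_co.Defs

set_option autoImplicit false

namespace Pool.Agent.H.MP_3eb4be_co

open SimpleGraph Finset Classical

section
variable {V : Type} [Fintype V] (G : SimpleGraph V)

theorem fam_le {v w : V} (hvw : v ≠ w) (k : ℕ) (P : Fin k → G.Walk v w)
    (hd : ∀ i j, i ≠ j → ∀ e, e ∈ (P i).edges → e ∉ (P j).edges) : k ≤ G.degree v := by
  have hn : ∀ i, ¬ (P i).Nil := fun i => Walk.not_nil_of_ne hvw
  have : (univ : Finset (Fin k)).card ≤ (G.neighborFinset v).card := by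
    refine card_le_card_of_injOn (fun i => (P i).snd) (fun i _ => ?_) (fun i _ j _ h => ?_)
    · simpa using Walk.adj_snd (hn i)
    · by_contra hne
      have h1 := Walk.mk_start_snd_mem_edges (hn i)
      have h2 := Walk.mk_start_snd_mem_edges (hn j)
      have h' : (P i).snd = (P j).snd := h
      rw [← h'] at h2
      exact hd i j hne _ h1 h2
  simpa using this

theorem lam_le_deg {v w : V} (hvw : v ≠ w) : lam G v w ≤ G.degree v := by
  refine csSup_le' ?_
  rintro k ⟨P, -, hd⟩
  exact fam_le G hvw k P hd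

theorem le_lam_of {v w : V} (hvw : v ≠ w) {ι : Type} [Fintype ι] (H : ι → SimpleGraph V)
    (hle : ∀ t, H t ≤ G) (hd : ∀ t t' x y, (H t).Adj x y → (H t').Adj x y → t = t')
    (hr : ∀ t, (H t).Reachable v w) : Fintype.card ι ≤ lam G v w := by
  refine le_csSup ⟨G.degree v, ?_⟩ ?_
  · rintro k ⟨P, -, hd⟩
    exact fam_le G hvw k P hd
  · let q := (Fintype.equivFin ι).symm
    refine ⟨fun i => ((hr (q i)).some.bypass).transfer G (fun e he =>
      edgeSet_mono (hle (q i)) (Walk.edges_subset_edgeSet _ he)), fun i => ?_, ?_⟩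
    · exact (Walk.bypass_isPath _).transfer _
    · intro i j hij e h1 h2
      rw [Walk.edges_transfer] at h1 h2
      have a1 := Walk.edges_subset_edgeSet _ h1
      have a2 := Walk.edges_subset_edgeSet _ h2
      induction e using Sym2.ind with
      | _ x y => exact hij (q.injective (hd _ _ x y a1 a2))

/-- edges inside `S` -/
noncomputable def ein (S : Finset V) : Finset (Sym2 V) :=
  G.edgeFinset.filter (fun e => ∀ x ∈ e, x ∈ S)

theorem dense_sub (s : ℕ) (hne : Nonempty V)
    (h : s * Fintype.card V < G.edgeFinset.card + s) :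
    ∃ H : G.Subgraph, EdgeConn H.coe (s + 1) := by
  have hex : ∃ m, ∃ S : Finset V, S.card = m ∧ S.Nonempty ∧ s * S.card < (ein G S).card + s := by
    refine ⟨_, univ, rfl, univ_nonempty, ?_⟩
    have : ein G univ = G.edgeFinset := by simp [ein]
    rw [this]; simpa using h
  obtain ⟨S, hS, hSne, hSd⟩ := Nat.find_spec hex
  have hmin : ∀ A : Finset V, A.card < S.card → A.Nonempty → (ein G A).card + s ≤ s * A.card := by
    intro A hA hAne
    by_contra! hc
    exact Nat.find_min hex (hS ▸ hA) ⟨A, rfl, hAne, hc⟩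
  have hpos : 0 < S.card := card_pos.2 hSne
  have hE : (ein G S).Nonempty := by
    rw [← card_pos]
    have : s * 1 ≤ s * S.card := Nat.mul_le_mul_left _ hpos
    omega
  refine ⟨(⊤ : G.Subgraph).induce ↑S, ?_, ?_⟩
  · obtain ⟨e, he⟩ := hE
    induction e using Sym2.ind with
    | _ x y =>
      simp only [ein, mem_filter, mem_edgeFinset, mem_edgeSet] at he
      refine ⟨⟨x, he.2 x (by simp)⟩, ⟨y, he.2 y (by simp)⟩, fun hxy => he.1.ne ?_⟩
      exact congrArg Subtype.val hxy
  · intro T _ hT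
    obtain ⟨x0, hx0⟩ := hSne
    rw [connected_iff]
    refine ⟨fun u v => ?_, ⟨⟨x0, hx0⟩⟩⟩
    by_contra hnr
    let K := (((⊤ : G.Subgraph).induce ↑S).coe.deleteEdges ↑T)
    let A : Finset V := S.filter (fun x => ∃ hx : x ∈ S, K.Reachable u ⟨x, hx⟩)
    have huA : u.1 ∈ A := mem_filter.2 ⟨u.2, u.2, Reachable.refl _⟩
    have hvB : v.1 ∈ S \ A := by
      refine mem_sdiff.2 ⟨v.2, fun hv => hnr ?_⟩
      obtain ⟨_, hx⟩ := (mem_filter.1 hv).2
      exact hx
    have hAS : A ⊆ S := filter_subset _ _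
    have hc : (S \ A).card + A.card = S.card := card_sdiff_add_card_eq_card hAS
    have p1 : 0 < A.card := card_pos.2 ⟨_, huA⟩
    have p2 : 0 < (S \ A).card := card_pos.2 ⟨_, hvB⟩
    have m1 := hmin A (by omega) ⟨_, huA⟩
    have m2 := hmin (S \ A) (by omega) ⟨_, hvB⟩
    have key : ∀ x y, G.Adj x y → ∀ (hx : x ∈ S) (hy : y ∈ S), x ∈ A → y ∉ A →
        s(x, y) ∈ T.image (Sym2.map Subtype.val) := by
      intro x y hxy hx hy hxA hyA
      by_contra hn
      apply hyA
      obtain ⟨_, hr⟩ := (mem_filter.1 hxA).2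
      refine mem_filter.2 ⟨hy, hy, hr.trans (Adj.reachable ?_)⟩
      refine deleteEdges_adj.2 ⟨?_, fun hT' => hn ?_⟩
      · exact ⟨hx, hy, hxy⟩
      · exact mem_image.2 ⟨_, hT', rfl⟩
    have hsub : ein G S ⊆ (ein G A ∪ ein G (S \ A)) ∪ T.image (Sym2.map Subtype.val) := by
      intro e he
      induction e using Sym2.ind with
      | _ x y =>
        simp only [ein, mem_filter, mem_edgeFinset, mem_edgeSet, Sym2.mem_iff, forall_eq_or_imp,
          forall_eq, mem_union] at he ⊢
        obtain ⟨hxy, hx, hy⟩ := he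
        by_cases hxA : x ∈ A <;> by_cases hyA : y ∈ A
        · exact Or.inl (Or.inl ⟨hxy, hxA, hyA⟩)
        · exact Or.inr (key x y hxy hx hy hxA hyA)
        · rw [Sym2.eq_swap]; exact Or.inr (key y x hxy.symm hy hx hyA hxA)
        · exact Or.inl (Or.inr ⟨hxy, mem_sdiff.2 ⟨hx, hxA⟩, mem_sdiff.2 ⟨hy, hyA⟩⟩)
    have c1 := card_le_card hsub
    have c2 := card_union_le (ein G A ∪ ein G (S \ A)) (T.image (Sym2.map Subtype.val))
    have c3 := card_union_le (ein G A) (ein G (S \ A))
    have c4 : (T.image (Sym2.map Subtype.val)).card ≤ T.card := card_image_le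
    have c5 : s * S.card = s * (S \ A).card + s * A.card := by rw [← hc, Nat.mul_add]
    omega

theorem no_sub (d t : ℕ) (hdt : d < t) (r : V → ℕ)
    (h : ∀ v, (univ.filter (fun w => G.Adj v w ∧ r v ≤ r w)).card ≤ d) (H : G.Subgraph) :
    ¬ EdgeConn H.coe t := by
  rintro ⟨hnt, hc⟩
  obtain ⟨x, -, hx⟩ := exists_min_image (univ : Finset H.verts) (fun z => r z.1) univ_nonempty
  let N : Finset H.verts := univ.filter (fun y => H.coe.Adj x y)
  have hN : N.card ≤ d := by
    refine le_trans (card_le_card_of_injOn Subtype.val (fun y hy => ?_)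
      (fun _ _ _ _ h => Subtype.ext h)) (h x.1)
    have hy' : H.coe.Adj x y := (mem_filter.1 hy).2
    exact mem_coe.2 (mem_filter.2 ⟨mem_univ _, H.adj_sub hy', hx y (mem_univ _)⟩)
  have hcon := hc (N.image (fun y => s(x, y))) (by
    intro e he
    obtain ⟨y, hy, rfl⟩ := mem_image.1 (mem_coe.1 he)
    exact (mem_filter.1 hy).2) (lt_of_le_of_lt (card_image_le.trans hN) hdt)
  obtain ⟨y, hy⟩ := exists_ne x
  obtain ⟨p⟩ := hcon.preconnected x y
  have hn : ¬ p.Nil := Walk.not_nil_of_ne hy.symm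
  have ha := deleteEdges_adj.1 (Walk.adj_snd hn)
  exact ha.2 (mem_coe.2 (mem_image.2 ⟨_, mem_filter.2 ⟨mem_univ _, ha.1⟩, rfl⟩))

end

theorem lower (l : ℕ) (hl : 1 ≤ l) : Forces l (l / 2 + 1) := by
  intro V _ _ G hn ha
  have hq : (2 : ℚ) ≤ Fintype.card V := by exact_mod_cast hn
  have hpos : (0 : ℚ) < (Fintype.card V : ℚ) * ((Fintype.card V : ℚ) - 1) := by
    apply mul_pos <;> linarith
  rw [avg, le_div_iff₀ hpos] at ha
  have h1 : ∑ p ∈ (univ : Finset V).offDiag, (lam G p.1 p.2 : ℚ) ≤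
      ∑ p ∈ (univ : Finset V).offDiag, (G.degree p.1 : ℚ) := by
    refine sum_le_sum fun p hp => ?_
    exact_mod_cast lam_le_deg G (mem_offDiag.1 hp).2.2
  have h2 : ∑ p ∈ (univ : Finset V).offDiag, (G.degree p.1 : ℚ) =
      ∑ v, ((Fintype.card V : ℚ) - 1) * (G.degree v : ℚ) := by
    have e : (univ : Finset V).offDiag = (univ ×ˢ univ).filter (fun p : V × V => p.1 ≠ p.2) := by
      ext p; simp
    rw [e, sum_filter, sum_product]
    refine sum_congr rfl fun v _ => ?_
    rw [← sum_filter]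
    have : (univ.filter (fun w : V => v ≠ w)) = univ.erase v := by ext w; simp [eq_comm]
    rw [this]
    show ∑ x ∈ univ.erase v, (G.degree v : ℚ) = _
    rw [sum_const, nsmul_eq_mul, card_erase_of_mem (mem_univ _), card_univ,
      Nat.cast_sub (by omega)]
    simp
  have h3 : ∑ v, (G.degree v : ℚ) = 2 * (G.edgeFinset.card : ℚ) := by
    exact_mod_cast G.sum_degrees_eq_twice_card_edges
  rw [← mul_sum, h3] at h2
  have h4 : (l : ℚ) * Fintype.card V ≤ 2 * (G.edgeFinset.card : ℚ) := by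
    have : ((Fintype.card V : ℚ) - 1) * ((l : ℚ) * Fintype.card V) ≤
        ((Fintype.card V : ℚ) - 1) * (2 * (G.edgeFinset.card : ℚ)) := by linarith
    exact le_of_mul_le_mul_left this (by linarith)
  have h5 : l * Fintype.card V ≤ 2 * G.edgeFinset.card := by exact_mod_cast h4
  refine dense_sub G (l / 2) (Fintype.card_pos_iff.1 (by omega)) ?_
  have h6 : (2 * (l / 2)) * Fintype.card V ≤ l * Fintype.card V :=
    Nat.mul_le_mul_right _ (by omega)
  have h7 : 1 * Fintype.card V ≤ l * Fintype.card V := Nat.mul_le_mul_right _ hl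
  rw [mul_assoc] at h6
  rcases Nat.eq_zero_or_pos (l / 2) with h0 | h0
  · rw [h0]; omega
  · omega

end Pool.Agent.H.MP_3eb4be_co
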