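import Pool.Agent.H.MP_3eb4be_co.A

set_option autoImplicit false

namespace Pool.Agent.H.MP_3eb4be_co

open SimpleGraph Finset Classical

variable {Z : Type} [Fintype Z] [CommRing Z] [Nontrivial Z]

/-- chain of complete bipartite graphs -/
def chain (N : ℕ) (Z : Type) : SimpleGraph (Fin N × Z) :=
  SimpleGraph.fromRel (fun p q => p.1.val + 1 = q.1.val)

/-- the forward edges used by the path with label `t` -/
def R (i j : ℕ) (a b : Z) (t : Bool × Z) (k : ℕ) (x y : Z) : Prop :=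
  (t.1 = true ∧ ((k + 1 = i ∧ x = t.2 ∧ (y = a ∨ y = a + 1)) ∨
    (k = i ∧ x = a + 1 ∧ y = t.2 + (k + 1)) ∨
    (i < k ∧ k + 1 < j ∧ x = t.2 + k ∧ y = t.2 + (k + 1)) ∨
    (k + 1 = j ∧ x = t.2 + k ∧ y = b + 1) ∨ (k = j ∧ (x = b ∨ x = b + 1) ∧ y = t.2))) ∨
  (t.1 = false ∧ ((k = i ∧ x = a ∧ y = t.2) ∨ (i < k ∧ k + 1 < j ∧ x = t.2 ∧ y = t.2) ∨
    (k + 1 = j ∧ x = t.2 ∧ y = b)))

omit [Fintype Z] in
theorem R_uniq {i j : ℕ} (hij : i + 2 ≤ j) {a b : Z} {t t' : Bool × Z} {k : ℕ} {x y : Z}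
    (h : R i j a b t k x y) (h' : R i j a b t' k x y) : t = t' := by
  obtain ⟨t1, c⟩ := t
  obtain ⟨t1', c'⟩ := t'
  have one : (1 : Z) ≠ 0 := one_ne_zero
  simp only [R] at h h'
  rcases h with ⟨rfl, h⟩ | ⟨rfl, h⟩ <;> rcases h' with ⟨rfl, h'⟩ | ⟨rfl, h'⟩
  · have : c = c' := by
      rcases h with h | h | h | h | h <;> rcases h' with h' | h' | h' | h' | h' <;>
        first
        | omega
        | exact h.2.1.symm.trans h'.2.1
        | exact add_right_cancel (h.2.2.symm.trans h'.2.2)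
        | exact add_right_cancel (h.2.2.1.symm.trans h'.2.2.1)
        | exact add_right_cancel (h.2.1.symm.trans h'.2.1)
        | exact h.2.2.symm.trans h'.2.2
    rw [this]
  · exfalso
    rcases h with h | h | h | h | h <;> rcases h' with h' | h' | h' <;>
      first
      | omega
      | exact one (by linear_combination h'.2.1 - h.2.1)
      | exact one (by linear_combination h'.2.2.2 - h'.2.2.1 - h.2.2.2 + h.2.2.1)
      | exact one (by linear_combination h'.2.2 - h.2.2)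
  · exfalso
    rcases h' with h' | h' | h' | h' | h' <;> rcases h with h | h | h <;>
      first
      | omega
      | exact one (by linear_combination h.2.1 - h'.2.1)
      | exact one (by linear_combination h.2.2.2 - h.2.2.1 - h'.2.2.2 + h'.2.2.1)
      | exact one (by linear_combination h.2.2 - h'.2.2)
  · have : c = c' := by
      rcases h with h | h | h <;> rcases h' with h' | h' | h' <;>
        first
        | omega
        | exact h.2.1.symm.trans h'.2.1
        | exact h.2.2.symm.trans h'.2.2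
        | exact h.2.2.1.symm.trans h'.2.2.1
    rw [this]

/-- the subgraph of the path with label `t` -/
def Hs (N i j : ℕ) (a b : Z) (t : Bool × Z) : SimpleGraph (Fin N × Z) :=
  SimpleGraph.fromRel (fun p q => p.1.val + 1 = q.1.val ∧ R i j a b t p.1.val p.2 q.2)

omit [Fintype Z] [Nontrivial Z] in
theorem Hs_step {N i j : ℕ} {a b : Z} {t : Bool × Z} (k : ℕ) (hk : k + 1 < N) (x y : Z)
    (h : R i j a b t k x y) :
    (Hs N i j a b t).Reachable (⟨k, by omega⟩, x) (⟨k + 1, hk⟩, y) := by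
  refine Adj.reachable ?_
  rw [Hs, fromRel_adj]
  refine ⟨fun e => ?_, Or.inl ⟨rfl, h⟩⟩
  have := congrArg (fun p : Fin N × Z => p.1.val) e
  simp at this

omit [Fintype Z] [Nontrivial Z] in
theorem Hs_reach {N : ℕ} (i j : ℕ) (hij : i + 3 ≤ j + 1) (hj : j + 2 < N) (a b : Z)
    (t : Bool × Z) :
    (Hs N (i + 1) (j + 1) a b t).Reachable (⟨i + 1, by omega⟩, a) (⟨j + 1, by omega⟩, b) := by
  obtain ⟨t1, c⟩ := t
  cases t1
  · have mid : ∀ m, ∀ hm : i + 2 + m ≤ j, (Hs N (i + 1) (j + 1) a b (false, c)).Reachable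
        (⟨i + 1, by omega⟩, a) (⟨i + 2 + m, by omega⟩, c) := by
      intro m
      induction m with
      | zero => intro hm; exact Hs_step (i + 1) (by omega) a c (Or.inr ⟨rfl, Or.inl ⟨rfl, rfl, rfl⟩⟩)
      | succ m ih =>
        intro hm
        exact (ih (by omega)).trans (Hs_step (i + 2 + m) (by omega) c c
          (Or.inr ⟨rfl, Or.inr (Or.inl ⟨by omega, by omega, rfl, rfl⟩)⟩))
    obtain ⟨m, rfl⟩ : ∃ m, j = i + 2 + m := ⟨j - (i + 2), by omega⟩
    exact (mid m le_rfl).trans (Hs_step (i + 2 + m) (by omega) c b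
      (Or.inr ⟨rfl, Or.inr (Or.inr ⟨rfl, rfl, rfl⟩)⟩))
  · have mid : ∀ m, ∀ hm : i + 2 + m ≤ j, (Hs N (i + 1) (j + 1) a b (true, c)).Reachable
        (⟨i + 1, by omega⟩, a) (⟨i + 2 + m, by omega⟩, c + ((i + 2 + m : ℕ) : Z)) := by
      intro m
      induction m with
      | zero =>
        intro hm
        refine (Hs_step i (by omega) c a (Or.inl ⟨rfl, Or.inl ⟨rfl, rfl, Or.inl rfl⟩⟩)).symm.trans
          ((Hs_step i (by omega) c (a + 1)
            (Or.inl ⟨rfl, Or.inl ⟨rfl, rfl, Or.inr rfl⟩⟩)).trans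
          (Hs_step (i + 1) (by omega) (a + 1) _
            (Or.inl ⟨rfl, Or.inr (Or.inl ⟨rfl, rfl, ?_⟩)⟩)))
        push_cast; ring
      | succ m ih =>
        intro hm
        refine (ih (by omega)).trans (Hs_step (i + 2 + m) (by omega) _ _
          (Or.inl ⟨rfl, Or.inr (Or.inr (Or.inl ⟨by omega, by omega, rfl, ?_⟩))⟩))
        push_cast; ring
    obtain ⟨m, rfl⟩ : ∃ m, j = i + 2 + m := ⟨j - (i + 2), by omega⟩
    exact (mid m le_rfl).trans ((Hs_step (i + 2 + m) (by omega) _ (b + 1)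
      (Or.inl ⟨rfl, Or.inr (Or.inr (Or.inr (Or.inl ⟨rfl, rfl, rfl⟩)))⟩)).trans
      ((Hs_step (i + 2 + m + 1) (by omega) (b + 1) c
        (Or.inl ⟨rfl, Or.inr (Or.inr (Or.inr (Or.inr ⟨rfl, Or.inr rfl, rfl⟩)))⟩)).trans
      (Hs_step (i + 2 + m + 1) (by omega) b c
        (Or.inl ⟨rfl, Or.inr (Or.inr (Or.inr (Or.inr ⟨rfl, Or.inl rfl, rfl⟩)))⟩)).symm))

theorem Hs_le (N i j : ℕ) (a b : Z) (t : Bool × Z) : Hs N i j a b t ≤ chain N Z := by
  intro p q h
  rw [Hs, fromRel_adj] at h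
  rw [chain, fromRel_adj]
  exact ⟨h.1, h.2.imp And.left And.left⟩

theorem Hs_uniq {N i j : ℕ} (hij : i + 2 ≤ j) (a b : Z) (t t' : Bool × Z) (p q : Fin N × Z)
    (h : (Hs N i j a b t).Adj p q) (h' : (Hs N i j a b t').Adj p q) : t = t' := by
  rw [Hs, fromRel_adj] at h h'
  rcases h.2 with h | h <;> rcases h'.2 with h' | h'
  · exact R_uniq hij h.2 h'.2
  · omega
  · omega
  · exact R_uniq hij h.2 h'.2

/-- pairs of inner vertices at least two layers apart -/
def Good {N : ℕ} (p : (Fin N × Z) × (Fin N × Z)) : Prop :=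
  p.2.1.val ≠ 0 ∧ p.2.1.val + 1 ≠ N ∧ p.1.1.val ≠ p.2.1.val ∧ p.1.1.val + 1 ≠ p.2.1.val ∧
    p.2.1.val + 1 ≠ p.1.1.val ∧ p.1.1.val ≠ 0 ∧ p.1.1.val + 1 ≠ N

theorem good_lam {N : ℕ} (p : (Fin N × Z) × (Fin N × Z)) (h : Good p) :
    2 * Fintype.card Z ≤ lam (chain N Z) p.1 p.2 := by
  obtain ⟨⟨⟨i, hi⟩, a⟩, ⟨⟨j, hj⟩, b⟩⟩ := p
  simp only [Good] at h
  obtain ⟨i, rfl⟩ : ∃ i', i = i' + 1 := ⟨i - 1, by omega⟩
  obtain ⟨j, rfl⟩ : ∃ j', j = j' + 1 := ⟨j - 1, by omega⟩
  have hne : ((⟨i + 1, hi⟩, a) : Fin N × Z) ≠ (⟨j + 1, hj⟩, b) := fun e => by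
    have := congrArg (fun p : Fin N × Z => p.1.val) e
    simp only at this
    omega
  have hc : Fintype.card (Bool × Z) = 2 * Fintype.card Z := by simp
  rw [← hc]
  rcases le_total i j with hij | hij
  · exact le_lam_of _ hne (Hs N (i + 1) (j + 1) a b) (Hs_le _ _ _ _ _)
      (Hs_uniq (by omega) a b) (Hs_reach i j (by omega) (by omega) a b)
  · exact le_lam_of _ hne (Hs N (j + 1) (i + 1) b a) (Hs_le _ _ _ _ _)
      (Hs_uniq (by omega) b a) (fun t => (Hs_reach j i (by omega) (by omega) b a t).symm)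

theorem card_fst {N : ℕ} (c : ℕ → ℕ → Prop) (hc : ∀ i j j', c i j → c i j' → j = j') :
    (univ.filter (fun p : (Fin N × Z) × (Fin N × Z) => c p.1.1.val p.2.1.val)).card ≤
      N * (Fintype.card Z * Fintype.card Z) := by
  have : (univ : Finset (Fin N × Z × Z)).card = N * (Fintype.card Z * Fintype.card Z) := by simp
  rw [← this]
  refine card_le_card_of_injOn (fun p => (p.1.1, p.1.2, p.2.2)) (fun _ _ => by simp) ?_
  rintro ⟨⟨i, a⟩, ⟨j, b⟩⟩ hp ⟨⟨i', a'⟩, ⟨j', b'⟩⟩ hq e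
  simp only [Prod.mk.injEq] at e
  obtain ⟨rfl, rfl, rfl⟩ := e
  have := hc _ _ _ (mem_filter.1 (mem_coe.1 hp)).2 (mem_filter.1 (mem_coe.1 hq)).2
  have : j = j' := Fin.ext this
  rw [this]

theorem card_snd {N : ℕ} (c : ℕ → Prop) (hc : ∀ j j', c j → c j' → j = j') :
    (univ.filter (fun p : (Fin N × Z) × (Fin N × Z) => c p.1.1.val)).card ≤
      N * (Fintype.card Z * Fintype.card Z) := by
  have : (univ : Finset (Fin N × Z × Z)).card = N * (Fintype.card Z * Fintype.card Z) := by simp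
  rw [← this]
  refine card_le_card_of_injOn (fun p => (p.2.1, p.1.2, p.2.2)) (fun _ _ => by simp) ?_
  rintro ⟨⟨i, a⟩, ⟨j, b⟩⟩ hp ⟨⟨i', a'⟩, ⟨j', b'⟩⟩ hq e
  simp only [Prod.mk.injEq] at e
  obtain ⟨rfl, rfl, rfl⟩ := e
  have := hc _ _ (mem_filter.1 (mem_coe.1 hp)).2 (mem_filter.1 (mem_coe.1 hq)).2
  have : i = i' := Fin.ext this
  rw [this]

theorem good_card (N : ℕ) :
    N * Fintype.card Z * (N * Fintype.card Z) ≤
      (univ.filter (fun p : (Fin N × Z) × (Fin N × Z) => Good p)).card +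
        7 * (N * (Fintype.card Z * Fintype.card Z)) := by
  have c1 := card_fst (Z := Z) (N := N) (fun _ j => j = 0) (by omega)
  have c2 := card_fst (Z := Z) (N := N) (fun _ j => j + 1 = N) (by omega)
  have c3 := card_fst (Z := Z) (N := N) (fun i j => i = j) (by omega)
  have c4 := card_fst (Z := Z) (N := N) (fun i j => i + 1 = j) (by omega)
  have c5 := card_fst (Z := Z) (N := N) (fun i j => j + 1 = i) (by omega)
  have c6 := card_snd (Z := Z) (N := N) (fun i => i = 0) (by omega)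
  have c7 := card_snd (Z := Z) (N := N) (fun i => i + 1 = N) (by omega)
  have e : (univ : Finset ((Fin N × Z) × (Fin N × Z))).card =
      N * Fintype.card Z * (N * Fintype.card Z) := by simp
  rw [← e]
  rw [card_filter] at c1 c2 c3 c4 c5 c6 c7 ⊢
  refine le_trans ?_ (add_le_add le_rfl (le_trans
    (add_le_add (add_le_add (add_le_add (add_le_add (add_le_add (add_le_add c1 c2) c3) c4) c5) c6)
      c7) (by omega)))
  rw [card_eq_sum_ones]
  simp only [← sum_add_distrib]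
  refine sum_le_sum fun p _ => ?_
  by_cases hg : Good p
  · rw [if_pos hg]; omega
  · rw [if_neg hg]
    simp only [Good] at hg
    split_ifs <;> omega

theorem chain_avg (l : ℕ) (hl : l + 1 ≤ 2 * Fintype.card Z) :
    (l : ℚ) ≤ avg (chain (14 * Fintype.card Z) Z) := by
  set d := Fintype.card Z with hd
  have h2 : 2 ≤ d := Fintype.one_lt_card
  have hq : (2 : ℚ) ≤ d := by exact_mod_cast h2
  have hn : (Fintype.card (Fin (14 * d) × Z) : ℚ) = 14 * d * d := by simp [← hd]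
  have hpos : (0 : ℚ) < 14 * d * d * (14 * d * d - 1) := by
    apply mul_pos <;> nlinarith
  rw [avg, hn, le_div_iff₀ hpos]
  have g := good_card (Z := Z) (14 * d)
  rw [← hd] at g
  set m := (univ.filter (fun p : (Fin (14 * d) × Z) × (Fin (14 * d) × Z) => Good p)).card with hm
  have g' : (14 * d * d * (14 * d * d) : ℚ) ≤ m + 7 * (14 * d * (d * d)) := by exact_mod_cast g
  have s1 : (m : ℚ) * (2 * d) ≤ ∑ p ∈ (univ : Finset (Fin (14 * d) × Z)).offDiag,
      (lam (chain (14 * d) Z) p.1 p.2 : ℚ) := by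
    refine le_trans ?_ (sum_le_sum_of_subset_of_nonneg
      (s := univ.filter (fun p : (Fin (14 * d) × Z) × (Fin (14 * d) × Z) => Good p))
      (fun p hp => ?_) (fun _ _ _ => Nat.cast_nonneg _))
    · rw [hm, ← nsmul_eq_mul, ← sum_const]
      refine sum_le_sum fun p hp => ?_
      exact_mod_cast good_lam p (mem_filter.1 hp).2
    · refine mem_offDiag.2 ⟨mem_univ _, mem_univ _, fun e => ?_⟩
      exact (mem_filter.1 hp).2.2.2.1 (by rw [e])
  refine le_trans ?_ s1
  have hl' : (l : ℚ) + 1 ≤ 2 * d := by exact_mod_cast hl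
  have a1 : (l : ℚ) * (14 * d * d * (14 * d * d - 1)) ≤
      (2 * d - 1) * (14 * d * d * (14 * d * d - 1)) :=
    mul_le_mul_of_nonneg_right (by linarith) hpos.le
  have a2 : (14 * d * d * (14 * d * d) - 7 * (14 * d * (d * d)) : ℚ) * (2 * d) ≤ m * (2 * d) :=
    mul_le_mul_of_nonneg_right (by linarith) (by linarith)
  have a3 : (0 : ℚ) ≤ (2 * d - 1) * (14 * d * d) := by
    apply mul_nonneg <;> nlinarith
  nlinarith

theorem chain_deg (N : ℕ) (v : Fin N × Z) :
    (univ.filter (fun w => (chain N Z).Adj v w ∧ v.1.val ≤ w.1.val)).card ≤ Fintype.card Z := by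
  rw [← card_univ]
  refine card_le_card_of_injOn Prod.snd (fun _ _ => by simp) ?_
  rintro ⟨j, b⟩ hp ⟨j', b'⟩ hq e
  have h1 := (mem_filter.1 (mem_coe.1 hp)).2
  have h2 := (mem_filter.1 (mem_coe.1 hq)).2
  rw [chain, fromRel_adj] at h1 h2
  have : j = j' := Fin.ext (by
    have a1 := h1.1.2; have a2 := h1.2; have a3 := h2.1.2; have a4 := h2.2
    simp only at a1 a2 a3 a4
    omega)
  simp only at e
  rw [this, e]

end Pool.Agent.H.MP_3eb4be_co
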