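import Mathlib

set_option autoImplicit false

namespace Pool.Agent.H.MP_3eb4be_co

/-- the maximum number of pairwise edge-disjoint `v`-`w` paths of `G` -/
noncomputable def lam {V : Type} (G : SimpleGraph V) (v w : V) : ℕ :=
  sSup {k : ℕ | ∃ P : Fin k → G.Walk v w, (∀ i, (P i).IsPath) ∧
    ∀ i j, i ≠ j → ∀ e, e ∈ (P i).edges → e ∉ (P j).edges}

/-- average edge-connectivity: the mean of `lam` over all ordered pairs of distinct vertices -/
noncomputable def avg {V : Type} [Fintype V] [DecidableEq V] (G : SimpleGraph V) : ℚ :=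
  (∑ p ∈ (Finset.univ : Finset V).offDiag, (lam G p.1 p.2 : ℚ)) /
    ((Fintype.card V : ℚ) * ((Fintype.card V : ℚ) - 1))

/-- `H` has at least two vertices and stays connected after deleting fewer than `t` edges -/
def EdgeConn {W : Type} (H : SimpleGraph W) (t : ℕ) : Prop :=
  Nontrivial W ∧ ∀ T : Finset (Sym2 W), (↑T : Set (Sym2 W)) ⊆ H.edgeSet → T.card < t →
    (H.deleteEdges ↑T).Connected

/-- every finite graph of order at least two with average edge-connectivity at least `l`
contains a `t`-edge-connected subgraph -/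
def Forces (l t : ℕ) : Prop :=
  ∀ (V : Type) [Fintype V] [DecidableEq V] (G : SimpleGraph V), 2 ≤ Fintype.card V →
    (l : ℚ) ≤ avg G → ∃ H : G.Subgraph, EdgeConn H.coe t

end Pool.Agent.H.MP_3eb4be_co
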